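import Pool.Agent.Helper12.XG.St

/-!
# Project XG, module ORD (the order at infinity)
-/

set_option autoImplicit false

namespace Pool.Agent.Helper27.XG

open Finset Polynomial Pool.Agent.Helper12.XG Pool.Agent.Helper14.GS

private theorem exp_bound (G : ℕ) : Real.exp (-(9 / 10) * G) ≤ 1 / 2 ^ G := by
  have h1 : (2 : ℝ) ≤ Real.exp (9 / 10) := by
    have h2 : (9 / 20 : ℝ) + 1 ≤ Real.exp (9 / 20) := Real.add_one_le_exp _
    have h3 : Real.exp (9 / 10) = Real.exp (9 / 20) * Real.exp (9 / 20) := by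
      rw [← Real.exp_add]; norm_num
    rw [h3]
    nlinarith
  have h4 : Real.exp (-(9 / 10) * G) = 1 / Real.exp (9 / 10) ^ G := by
    rw [← Real.exp_nat_mul, one_div, ← Real.exp_neg]
    congr 1
    ring
  rw [h4]
  exact one_div_le_one_div_of_le (by positivity) (pow_le_pow_left₀ (by norm_num) h1 G)

theorem hORD (h1 : StTHE) (h2 : StHCA) (h3 : StPAI) : StORD := by
  classical
  intro E G q hE hq hG β hβ hB
  by_contra hcon
  push Not at hcon
  obtain ⟨Θ, hdeg, hΘ0, hΘ⟩ := h1 E G hE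
  obtain ⟨h, hh⟩ : ∃ h, h = E ^ 2 := ⟨_, rfl⟩
  rw [← hh] at hcon hβ hG hΘ
  have hB' : ∀ j b, ‖(β j b : ℂ)‖ ≤ (2 * ((h : ℝ) + 1) ^ 3) ^ q := by
    intro j b
    have := hB j b
    have e1 : ‖(β j b : ℂ)‖ = ((|β j b| : ℤ) : ℝ) := by
      rw [Complex.norm_intCast, Int.cast_abs]
    rw [e1]
    have e2 : ((|β j b| : ℤ) : ℝ) ≤ (((2 * ((E : ℤ) ^ 2 + 1) ^ 3) ^ q : ℤ) : ℝ) := by
      exact_mod_cast this
    refine e2.trans (le_of_eq ?_)
    rw [hh]
    push_cast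
    ring
  -- the first node
  have hex : ∃ j, ∃ b ∈ range q, β j b ≠ 0 := by
    obtain ⟨j, -, hj⟩ := hβ
    exact ⟨j, hj⟩
  set j₀ := Nat.find hex with hj₀
  obtain ⟨b₀, hb₀, hne₀⟩ := Nat.find_spec hex
  rw [← hj₀] at hne₀
  have hmin : ∀ j, j < j₀ → ∀ b ∈ range q, β j b = 0 := by
    intro j hj b hb
    by_contra hne
    exact Nat.find_min hex hj ⟨b, hb, hne⟩
  have hj₀h : j₀ ≤ h := by
    obtain ⟨j, hj, hj'⟩ := hβ
    have := Nat.find_min' hex hj'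
    rw [← hj₀] at this
    have := Finset.mem_range.mp hj
    omega
  -- the last order
  set S : Finset ℕ := (range q).filter fun b => β j₀ b ≠ 0 with hS
  have hSne : S.Nonempty := ⟨b₀, by rw [hS, Finset.mem_filter]; exact ⟨hb₀, hne₀⟩⟩
  set b₁ := S.max' hSne with hb₁
  have hb₁mem : b₁ ∈ S := S.max'_mem hSne
  rw [hS, Finset.mem_filter, Finset.mem_range] at hb₁mem
  obtain ⟨hb₁q, hne₁⟩ := hb₁mem
  have hmax : ∀ b, b ∈ range q → b₁ < b → β j₀ b = 0 := by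
    intro b hb hlt
    by_contra hne
    have := S.le_max' b (by rw [hS, Finset.mem_filter]; exact ⟨hb, hne⟩)
    rw [← hb₁] at this
    omega
  -- the polynomial
  set Δ : ℂ[X] := X ^ b₁ * Θ ^ q with hΔ
  set Γ : ℂ[X] := taylor (j₀ : ℂ) Δ with hΓ
  have hΔdeg : Δ.natDegree ≤ b₁ + q * (E * G) := by
    refine natDegree_mul_le.trans (add_le_add (natDegree_X_pow_le _) ?_)
    exact natDegree_pow_le.trans (Nat.mul_le_mul_left _ hdeg)
  have hΓdeg : Γ.natDegree < (E * G + 1) * q := by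
    rw [hΓ, natDegree_taylor]
    have e1 : (E * G + 1) * q = q * (E * G) + q := by ring
    omega
  have hsum := h3 h q ((E * G + 1) * q) β hcon Γ hΓdeg.le 0
  rw [coeff_eq_zero_of_natDegree_lt hΓdeg, zero_mul] at hsum
  set F : ℕ → ℂ := fun j => ∑ b ∈ range q, (β j b : ℂ) * (hasseDeriv b Γ).eval (-(j : ℂ) - 0)
    with hF
  have hsplit : F j₀ + ∑ j ∈ (range (h + 1)).erase j₀, F j = 0 := by
    rw [Finset.add_sum_erase _ _ (Finset.mem_range.mpr (by omega))]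
    exact hsum
  have hFj₀ : F j₀ = (β j₀ b₁ : ℂ) := by
    have hev : ∀ b, (hasseDeriv b Γ).eval (-(j₀ : ℂ) - 0) = Δ.coeff b := by
      intro b
      rw [← taylor_coeff, hΓ, taylor_taylor, sub_zero]
      have : (-(j₀ : ℂ) + (j₀ : ℂ)) = 0 := by ring
      rw [this, taylor_zero]
    rw [hF]
    change ∑ b ∈ range q, (β j₀ b : ℂ) * (hasseDeriv b Γ).eval (-(j₀ : ℂ) - 0) = _
    rw [Finset.sum_eq_single b₁]
    · rw [hev, hΔ, coeff_X_pow_mul', if_pos le_rfl, Nat.sub_self, coeff_zero_eq_eval_zero,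
        eval_pow, hΘ0, one_pow, mul_one]
    · intro b hb hbne
      rcases lt_or_gt_of_ne hbne with hlt | hlt
      · rw [hev, hΔ, coeff_X_pow_mul', if_neg (by omega), mul_zero]
      · rw [hmax b hb hlt, Int.cast_zero, zero_mul]
    · intro hb
      exact absurd (Finset.mem_range.mpr hb₁q) hb
  -- bound of the other nodes
  have hh1 : (1 : ℝ) ≤ (h : ℝ) + 1 := by
    have : (0 : ℝ) ≤ h := Nat.cast_nonneg h
    linarith
  have hh0 : (0 : ℝ) < (h : ℝ) + 1 := by linarith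
  set σ : ℝ := 2 * Real.exp (-(9 / 10) * G) with hσ
  have hσ0 : 0 ≤ σ := by positivity
  have hσ1 : σ ≤ 1 / (128 * ((h : ℝ) + 1) ^ 5) := by
    have e1 : (256 : ℝ) * ((h : ℝ) + 1) ^ 5 ≤ 2 ^ G := by exact_mod_cast hG
    have e2 := exp_bound G
    have e3 : (1 : ℝ) / 2 ^ G ≤ 1 / (256 * ((h : ℝ) + 1) ^ 5) :=
      one_div_le_one_div_of_le (by positivity) e1
    have e4 : (1 : ℝ) / (128 * ((h : ℝ) + 1) ^ 5) = 2 * (1 / (256 * ((h : ℝ) + 1) ^ 5)) := by
      field_simp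
      norm_num
    rw [e4, hσ]
    linarith
  set c : ℝ := (1 / (4 * ((h : ℝ) + 1))) ^ q with hc
  have hterm : ∀ j, j₀ < j → j ≤ h → ∀ b ∈ range q,
      ‖(β j b : ℂ) * (hasseDeriv b Γ).eval (-(j : ℂ) - 0)‖ ≤ c := by
    intro j hj hjh b hb
    have hbq := Finset.mem_range.mp hb
    rw [sub_zero]
    have hbd : ∀ z : ℂ, ‖z - (-(j : ℂ))‖ ≤ 1 / 16 → ‖Γ.eval z‖ ≤ ((h : ℝ) + 1) ^ q * σ ^ q := by
      intro z hz
      rw [sub_neg_eq_add] at hz
      have e1 : Γ.eval z = (z + (j₀ : ℂ)) ^ b₁ * (Θ.eval (z + (j₀ : ℂ))) ^ q := by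
        rw [hΓ, taylor_eval, hΔ, eval_mul, eval_pow, eval_X, eval_pow]
      have e2 : z + (j₀ : ℂ) + ((j - j₀ : ℕ) : ℂ) = z + (j : ℂ) := by
        rw [Nat.cast_sub hj.le]; ring
      have e3 : ‖Θ.eval (z + (j₀ : ℂ))‖ ≤ σ :=
        hΘ (j - j₀) (by omega) (by omega) _ (by rw [e2]; exact hz)
      have e4 : ‖z + (j₀ : ℂ)‖ ≤ (h : ℝ) + 1 := by
        have e5 : z + (j₀ : ℂ) = (z + (j : ℂ)) - ((j - j₀ : ℕ) : ℂ) := by
          rw [← e2]; ring
        rw [e5]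
        refine (norm_sub_le _ _).trans ?_
        rw [Complex.norm_natCast]
        have e6 : ((j - j₀ : ℕ) : ℝ) ≤ h := by exact_mod_cast (by omega : j - j₀ ≤ h)
        linarith
      rw [e1, norm_mul, norm_pow, norm_pow]
      refine mul_le_mul ?_ (pow_le_pow_left₀ (norm_nonneg _) e3 q) (by positivity) (by positivity)
      calc ‖z + (j₀ : ℂ)‖ ^ b₁ ≤ ((h : ℝ) + 1) ^ b₁ := pow_le_pow_left₀ (norm_nonneg _) e4 _
        _ ≤ ((h : ℝ) + 1) ^ q := pow_le_pow_right₀ hh1 hb₁q.le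
    have hC := h2 Γ b (-(j : ℂ)) (1 / 16) (((h : ℝ) + 1) ^ q * σ ^ q) (by norm_num) hbd
    have hD : ‖(hasseDeriv b Γ).eval (-(j : ℂ))‖ ≤ ((h : ℝ) + 1) ^ q * σ ^ q * 16 ^ q := by
      have e1 : ‖(hasseDeriv b Γ).eval (-(j : ℂ))‖ ≤ ((h : ℝ) + 1) ^ q * σ ^ q * 16 ^ b := by
        have e2 : ((1 : ℝ) / 16) ^ b * 16 ^ b = 1 := by
          rw [← mul_pow]; norm_num
        calc ‖(hasseDeriv b Γ).eval (-(j : ℂ))‖
            = ‖(hasseDeriv b Γ).eval (-(j : ℂ))‖ * (1 / 16) ^ b * 16 ^ b := by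
              rw [mul_assoc, e2, mul_one]
          _ ≤ _ := mul_le_mul_of_nonneg_right hC (by positivity)
      refine e1.trans (mul_le_mul_of_nonneg_left ?_ (by positivity))
      exact pow_le_pow_right₀ (by norm_num) hbq.le
    rw [norm_mul]
    calc ‖(β j b : ℂ)‖ * ‖(hasseDeriv b Γ).eval (-(j : ℂ))‖
        ≤ (2 * ((h : ℝ) + 1) ^ 3) ^ q * (((h : ℝ) + 1) ^ q * σ ^ q * 16 ^ q) :=
          mul_le_mul (hB' j b) hD (norm_nonneg _) (by positivity)
      _ = (2 * ((h : ℝ) + 1) ^ 3 * (((h : ℝ) + 1) * σ * 16)) ^ q := by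
          rw [← mul_pow, ← mul_pow, ← mul_pow]
      _ ≤ c := by
          rw [hc]
          refine pow_le_pow_left₀ (by positivity) ?_ q
          have e1 : 2 * ((h : ℝ) + 1) ^ 3 * (((h : ℝ) + 1) * σ * 16) =
              32 * ((h : ℝ) + 1) ^ 4 * σ := by ring
          rw [e1]
          calc 32 * ((h : ℝ) + 1) ^ 4 * σ ≤
              32 * ((h : ℝ) + 1) ^ 4 * (1 / (128 * ((h : ℝ) + 1) ^ 5)) :=
                mul_le_mul_of_nonneg_left hσ1 (by positivity)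
            _ = 1 / (4 * ((h : ℝ) + 1)) := by
                field_simp
                norm_num
  have hc0 : 0 ≤ c := by positivity
  have hFj : ∀ j ∈ (range (h + 1)).erase j₀, ‖F j‖ ≤ q * c := by
    intro j hj
    rw [Finset.mem_erase, Finset.mem_range] at hj
    rcases lt_or_gt_of_ne hj.1 with hlt | hlt
    · have e1 : F j = 0 := by
        rw [hF]
        change ∑ b ∈ range q, (β j b : ℂ) * (hasseDeriv b Γ).eval (-(j : ℂ) - 0) = 0
        refine Finset.sum_eq_zero fun b hb => ?_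
        rw [hmin j hlt b hb, Int.cast_zero, zero_mul]
      rw [e1, norm_zero]
      positivity
    · rw [hF]
      change ‖∑ b ∈ range q, (β j b : ℂ) * (hasseDeriv b Γ).eval (-(j : ℂ) - 0)‖ ≤ q * c
      refine (norm_sum_le _ _).trans ?_
      refine (Finset.sum_le_sum fun b hb => hterm j hlt (by omega) b hb).trans ?_
      rw [Finset.sum_const, Finset.card_range, nsmul_eq_mul]
  have hrest : ‖∑ j ∈ (range (h + 1)).erase j₀, F j‖ ≤ h * (q * c) := by
    refine (norm_sum_le _ _).trans ?_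
    refine (Finset.sum_le_sum hFj).trans ?_
    rw [Finset.sum_const, Finset.card_erase_of_mem (Finset.mem_range.mpr (by omega)),
      Finset.card_range, nsmul_eq_mul]
    simp
  have hlow : (1 : ℝ) ≤ ‖F j₀‖ := by
    rw [hFj₀, Complex.norm_intCast, ← Int.cast_abs]
    exact_mod_cast Int.one_le_abs hne₁
  have heq : ‖F j₀‖ = ‖∑ j ∈ (range (h + 1)).erase j₀, F j‖ := by
    rw [eq_neg_of_add_eq_zero_left hsplit, norm_neg]
  have hfin : (h : ℝ) * (q * c) < 1 := by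
    have e1 : (q : ℝ) < 4 ^ q := by exact_mod_cast Nat.lt_pow_self (by norm_num : 1 < 4)
    have e2 : (h : ℝ) + 1 ≤ ((h : ℝ) + 1) ^ q := by
      calc (h : ℝ) + 1 = ((h : ℝ) + 1) ^ 1 := (pow_one _).symm
        _ ≤ _ := pow_le_pow_right₀ hh1 hq
    have e3 : c = 1 / (4 ^ q * ((h : ℝ) + 1) ^ q) := by
      rw [hc, one_div_pow, mul_pow]
    rw [e3]
    have e4 : (0 : ℝ) < 4 ^ q * ((h : ℝ) + 1) ^ q := by positivity
    have e5 : (h : ℝ) * (q * (1 / (4 ^ q * ((h : ℝ) + 1) ^ q))) =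
        (h : ℝ) * q / (4 ^ q * ((h : ℝ) + 1) ^ q) := by ring
    rw [e5, div_lt_one e4]
    have hq0 : (0 : ℝ) ≤ q := Nat.cast_nonneg q
    have hhn : (0 : ℝ) ≤ h := Nat.cast_nonneg h
    calc (h : ℝ) * q ≤ ((h : ℝ) + 1) * q := by nlinarith
      _ < ((h : ℝ) + 1) * 4 ^ q := mul_lt_mul_of_pos_left e1 hh0
      _ ≤ ((h : ℝ) + 1) ^ q * 4 ^ q := mul_le_mul_of_nonneg_right e2 (by positivity)
      _ = 4 ^ q * ((h : ℝ) + 1) ^ q := by ring
  linarith

end Pool.Agent.Helper27.XG
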